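import Pool.Agent.V1157.GM.Main

/-!
# The monodromy-weight conjecture and ranks of the Galois group algebra

Let `F` be a finite extension of `ℚ_p` with absolute Galois group `G`, fix a dimension `n`, a degree
`m` and `j ≥ 1`, and let `f` be any non-zero element of the group algebra of `G` over the field of
coefficients. For a variety `X` over `F` of dimension `n` let `B(X)` be the kernel of the `j`-th
power of the monodromy operator on the part of weight `m + j` of `H^m(X)`. If the rank of `f` on
`B(X)` is at most `b`, for all `X`, then `B(X) = 0` for all `X`. (By duality and hard Lefschetz the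
monodromy-weight conjecture for `H^m(X)` says that `B(X) = 0` for all `j ≥ 1`.)

Proof: let `t ∈ B(S)`. Choose `h₀` in the support of `f` and a subgroup `U` of finite index
containing no `h⁻¹ h₀`, `h ≠ h₀` in the support. Let `V` over `F` be a complete intersection, of
dimension `n`, in the restriction of scalars of `S^(b+1)` from the fixed field of `U`; it has
projections `p i l : V ⟶ S` over `k`, `i ∈ G/U`, `l ≤ b`, which are permuted by `G`. Put
`t_l = (p 1 l)^* t`, an element of `B(V)`. If `∑ c_l f t_l = 0` then its push-forward by `p h₀ l` is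
zero. But `(p h₀ l)_* h t_l' = h (p (h⁻¹ h₀) l)_* (p 1 l')^* t` is zero unless `h = h₀` and `l' = l`
(it is given by a correspondence which factors through the point, and `t` has weight
`m + j ≠ m`), and in this case it is a non-zero multiple of `h₀ t`.
-/

open CategoryTheory AlgebraicGeometry

universe u v w x y

namespace Pool.Agent.Results.MP_cd312e_ag.GroupAlgebraRanks

open Pool.Agent.H914 Pool.Agent.H914.VarClass Pool.Agent.H914.VarClass.Obj Pool.Agent.W492.BB
  Pool.Agent.TH133 Pool.Agent.V1157.GA Pool.Agent.V1157.GM

theorem result {k : Type u} [Field k] {𝒱 : VarClass k} {C : TheoryData.{u, v, 0} 𝒱 ℚ}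
    [IsChowProj C] {K : Type w} [Field K] [CharZero K] {H : WeilTheoryData.{u, v, w} C K}
    [IsWeilProj H] (D : MonoData H) (hD : IsMono D) {G : Type x} [Group G]
    (R : Forms.{u, v, w, x, y} G H.toTheoryData) (hR : IsGalois R 1) (n m j : ℕ) (hj : 0 < j)
    (hP : HasTwistedPowers R C n) (f : G →₀ K) (hf : f ≠ 0) :
    MonodromyInjective D R n m j ↔ ∃ b, KernelRankAtMost D R n m j f b :=
  ⟨fun h => ⟨0, rank_of_injective hR h f⟩, fun ⟨_, hb⟩ => injective_of_rank hD hR hP hj hf hb⟩

end Pool.Agent.Results.MP_cd312e_ag.GroupAlgebraRanks
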