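import Pool.Agent.V2450.WM.Pair

/-!
# MP_cd312e_ag: the monodromy-weight conjecture for one prime and for all primes
-/

set_option autoImplicit false

open Module

universe u v w

namespace Pool.Agent.Results.MP_cd312e_ag.TransferBetweenPrimes

open Pool.Agent.H914 Pool.Agent.Y143 Pool.Agent.Y163.MW Pool.Agent.Y163.MX Pool.Agent.V2450.WM

variable {K : Type u} [Field K] {Λ : Type} {Ω : Λ → Type w} [∀ ℓ, Field (Ω ℓ)]
  [∀ ℓ, CharZero (Ω ℓ)]

/-- The known properties of the cohomology theories `T ℓ`, where `ℓ` runs through a set `Λ` of primes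
(the `ℓ`-adic étale cohomology if `ℓ ≠ p`, and `D_pst` of the `p`-adic étale cohomology if `ℓ = p`): for
all smooth proper varieties `X` over the local field `K`, finite dimension, `N F = q F N`, integral
weights, self-duality; the Betti numbers do not depend on `ℓ`; and the quotient of the characteristic
polynomials of the Frobenius on `H^even(X)` and on `H^odd(X)` has rational coefficients and does not
depend on `ℓ`. -/
structure IsSystem (T : ∀ ℓ, Theory.{u, v, w} K (Ω ℓ)) (q : ℕ) : Prop where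
  coh : ∀ ℓ X, ((T ℓ).H X).IsCoh q
  betti : ∀ ℓ ℓ' X m, finrank (Ω ℓ) (((T ℓ).H X).gr m) = finrank (Ω ℓ') (((T ℓ').H X).gr m)
  alt : ∀ ℓ ℓ' X, SameAlt ((T ℓ).H X) ((T ℓ').H X) (2 * X.dim)

/-- The monodromy-weight conjecture for the prime `ℓ` and for `H^m(X)`, for all `m ∈ S`. -/
def MWFor (T : ∀ ℓ, Theory.{u, v, w} K (Ω ℓ)) (q : ℕ) (X : SmVar.{u} K) (S : Finset ℕ) (ℓ : Λ) :
    Prop := ∀ m ∈ S, ((T ℓ).H X).MWPure q m

/-- The number `2 ∑ k rank (N ^ k)` on the sum of the groups `H^m(X)`, `m ∈ S`, for the prime `ℓ`. -/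
noncomputable def ranks (T : ∀ ℓ, Theory.{u, v, w} K (Ω ℓ)) (X : SmVar.{u} K) (S : Finset ℕ)
    (ℓ : Λ) : ℤ := ∑ m ∈ S, ((T ℓ).H X).rankMoment m

/-- The number `∑ (w - m)²` on the sum of the groups `H^m(X)`, `m ∈ S`, for the prime `ℓ`; here `w` runs
through the weights of the eigenvalues of the Frobenius on `H^m(X)`. -/
noncomputable def weights (T : ∀ ℓ, Theory.{u, v, w} K (Ω ℓ)) (q : ℕ) (X : SmVar.{u} K)
    (S : Finset ℕ) (ℓ : Λ) : ℤ := ∑ m ∈ S, ((T ℓ).H X).weightMoment q m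

/-- `M m` is the monodromy filtration of `H^m(X)` for all `m ∈ S`, for the prime `ℓ`. -/
def IsMonFil (T : ∀ ℓ, Theory.{u, v, w} K (Ω ℓ)) (X : SmVar.{u} K) (S : Finset ℕ) (ℓ : Λ)
    (M : ℕ → ℤ → Submodule (Ω ℓ) ((T ℓ).H X).V) : Prop :=
  ∀ m ∈ S, IsMonodromyFiltrationOn (((T ℓ).H X).gr m) ((T ℓ).H X).N (M m)

/-- The number of the Frobenius eigenvalues on the graded pieces of the monodromy filtrations `M m` of
the groups `H^m(X)`, `m ∈ S`, whose weight is not the expected one. -/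
noncomputable def wrong (T : ∀ ℓ, Theory.{u, v, w} K (Ω ℓ)) (q : ℕ) (X : SmVar.{u} K)
    (S : Finset ℕ) (ℓ : Λ) (M : ℕ → ℤ → Submodule (Ω ℓ) ((T ℓ).H X).V) : ℤ :=
  ∑ m ∈ S, ((finrank (Ω ℓ) (((T ℓ).H X).gr m) : ℤ) - rightDeg ((T ℓ).H X) q m (M m))

/-- **From one prime to all primes.** Let `X` be a smooth proper variety over the local field `K`, and
let `S` be a set of degrees `m ≤ 2 dim X` of one parity such that in the degrees outside `S` the
characteristic polynomial of the Frobenius is rational and does not depend on `ℓ` (for example, `X`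
has no odd cohomology, and `S` is the set of all even degrees; nothing is assumed on the
characteristic polynomials in the degrees in `S`).

(1) The number `∑ (w - m)²` on the sum of the `H^m(X)`, `m ∈ S`, and the number of the eigenvalues of
any given weight on this sum do not depend on the prime `ℓ`.

(2) If the monodromy-weight conjecture holds for `H^m(X)`, `m ∈ S`, and for one prime `ℓ₀` (which may
be `p`), then `∑ k rank (N ^ k)` is for every prime `ℓ` at most the number for `ℓ₀`, and it is equal to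
this number if and only if the monodromy-weight conjecture holds for `H^m(X)`, `m ∈ S`, and the prime
`ℓ`. The number of the eigenvalues of wrong weight for `ℓ` is at most the difference. -/
theorem result [∀ ℓ, IsAlgClosed (Ω ℓ)] {T : ∀ ℓ, Theory.{u, v, w} K (Ω ℓ)} {q : ℕ} (hq : 1 < q)
    (hT : IsSystem T q) (X : SmVar.{u} K) (S : Finset ℕ)
    (hS : ∀ ℓ ℓ', RemainingPair ((T ℓ).H X) ((T ℓ').H X) (2 * X.dim) S) :
    (∀ ℓ ℓ', weights T q X S ℓ = weights T q X S ℓ' ∧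
      ∀ c : ℤ, ∑ m ∈ S, finrank (Ω ℓ) (((T ℓ).H X).exc q m (c - m)) =
        ∑ m ∈ S, finrank (Ω ℓ') (((T ℓ').H X).exc q m (c - m))) ∧
    ∀ ℓ₀, MWFor T q X S ℓ₀ → ∀ ℓ, ranks T X S ℓ ≤ ranks T X S ℓ₀ ∧
      (ranks T X S ℓ = ranks T X S ℓ₀ ↔ MWFor T q X S ℓ) ∧
      ∀ M, IsMonFil T X S ℓ M → wrong T q X S ℓ M ≤ ranks T X S ℓ₀ - ranks T X S ℓ := by
  have hw : ∀ ℓ ℓ', weights T q X S ℓ = weights T q X S ℓ' := by
    intro ℓ ℓ'
    obtain ⟨P, hP, hP'⟩ := common (hT.coh ℓ X) (hT.alt ℓ ℓ' X) (hS ℓ ℓ')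
    exact weightS_congr hq (hT.coh ℓ X) (hT.coh ℓ' X) hP hP' (hT.betti ℓ ℓ' X)
  refine ⟨fun ℓ ℓ' => ⟨hw ℓ ℓ', fun c => ?_⟩, fun ℓ₀ h0 ℓ => ?_⟩
  · obtain ⟨P, hP, hP'⟩ := common (hT.coh ℓ X) (hT.alt ℓ ℓ' X) (hS ℓ ℓ')
    exact weightsS_congr hq (hT.coh ℓ X) (hT.coh ℓ' X) hP hP' c
  · have h1 : ranks T X S ℓ₀ = weights T q X S ℓ₀ := (rankS_le hq (hT.coh ℓ₀ X) S).2.2 h0
    have h2 : ranks T X S ℓ ≤ weights T q X S ℓ := (rankS_le hq (hT.coh ℓ X) S).1
    have h3 : ranks T X S ℓ = weights T q X S ℓ ↔ MWFor T q X S ℓ :=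
      (rankS_le hq (hT.coh ℓ X) S).2
    rw [h1, hw ℓ₀ ℓ]
    refine ⟨h2, h3, fun M hM => ?_⟩
    exact wrongS_le hq (hT.coh ℓ X) S hM

end Pool.Agent.Results.MP_cd312e_ag.TransferBetweenPrimes
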